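import Pool.Agent.U436.CT.Cover

/-!
# The map `C ^ d → V` is finite
-/

set_option autoImplicit false

namespace Pool.Agent.U436.CT

open Finset Pool.Agent.U436 Pool.Agent.U436.AS

section general

variable {k : Type} [Field k] {ι κ : Type} {X : Set (ι → k)} {π : (ι → k) → κ → k}

/-- The function is integral over the functions on the target. -/
def Itg (X : Set (ι → k)) (π : (ι → k) → κ → k) (F : (ι → k) → k) : Prop :=
  (pull X π).IsIntegralElem fun x : X => F x

lemma Itg.of_pol {F : (ι → k) → k} {G : (κ → k) → k} (hG : IsPol G) (h : ∀ x ∈ X, F x = G (π x)) :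
    Itg X π F := by
  obtain ⟨p, hp⟩ := hG
  have h1 : (fun x : X => F x) = pull X π p := by
    funext x
    rw [h x x.2, hp]
    rfl
  unfold Itg
  rw [h1]
  exact RingHom.isIntegralElem_map _

lemma Itg.const (c : k) : Itg X π fun _ => c := Itg.of_pol (IsPol.const c) fun _ _ => rfl

lemma Itg.add {F G : (ι → k) → k} (hF : Itg X π F) (hG : Itg X π G) : Itg X π fun x => F x + G x :=
  RingHom.IsIntegralElem.add _ hF hG

lemma Itg.mul {F G : (ι → k) → k} (hF : Itg X π F) (hG : Itg X π G) : Itg X π fun x => F x * G x :=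
  RingHom.IsIntegralElem.mul _ hF hG

lemma Itg.neg {F : (ι → k) → k} (hF : Itg X π F) : Itg X π fun x => -F x := by
  have h1 := (Itg.const (-1 : k)).mul hF
  have h2 : (fun x => (-1 : k) * F x) = fun x => -F x := by funext x; ring
  rw [h2] at h1
  exact h1

lemma Itg.sub {F G : (ι → k) → k} (hF : Itg X π F) (hG : Itg X π G) : Itg X π fun x => F x - G x := by
  have h1 := hF.add hG.neg
  have h2 : (fun x => F x + -G x) = fun x => F x - G x := by funext x; ring
  rw [h2] at h1
  exact h1

lemma Itg.pow {F : (ι → k) → k} (hF : Itg X π F) (n : ℕ) : Itg X π fun x => F x ^ n := by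
  induction n with
  | zero =>
    have h2 : (fun x => F x ^ 0) = fun _ => (1 : k) := by funext x; exact pow_zero _
    rw [h2]; exact Itg.const 1
  | succ n ih =>
    have h2 : (fun x => F x ^ (n + 1)) = fun x => F x ^ n * F x := by funext x; exact pow_succ _ _
    rw [h2]; exact ih.mul hF

lemma Itg.sum {β : Type} (t : Finset β) {F : β → (ι → k) → k} (hF : ∀ i ∈ t, Itg X π (F i)) :
    Itg X π fun x => ∑ i ∈ t, F i x := by
  classical
  induction t using Finset.induction_on with
  | empty =>
    have h2 : (fun x => ∑ i ∈ (∅ : Finset β), F i x) = fun _ => (0 : k) := by funext x; exact Finset.sum_empty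
    rw [h2]; exact Itg.const 0
  | insert a t ha ih =>
    have h1 := (hF a (mem_insert_self a t)).add (ih fun i hi => hF i (mem_insert_of_mem hi))
    have h2 : (fun x => ∑ i ∈ insert a t, F i x) = fun x => F a x + ∑ i ∈ t, F i x := by
      funext x; exact Finset.sum_insert ha
    rw [h2]; exact h1

lemma Itg.prod {β : Type} (t : Finset β) {F : β → (ι → k) → k} (hF : ∀ i ∈ t, Itg X π (F i)) :
    Itg X π fun x => ∏ i ∈ t, F i x := by
  classical
  induction t using Finset.induction_on with
  | empty =>
    have h2 : (fun x => ∏ i ∈ (∅ : Finset β), F i x) = fun _ => (1 : k) := by funext x; exact Finset.prod_empty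
    rw [h2]; exact Itg.const 1
  | insert a t ha ih =>
    have h1 := (hF a (mem_insert_self a t)).mul (ih fun i hi => hF i (mem_insert_of_mem hi))
    have h2 : (fun x => ∏ i ∈ insert a t, F i x) = fun x => F a x * ∏ i ∈ t, F i x := by
      funext x; exact Finset.prod_insert ha
    rw [h2]; exact h1

lemma Itg.eval {F : (ι → k) → k} (hF : Itg X π F) (f : Polynomial k) : Itg X π fun x => f.eval (F x) := by
  have h2 : (fun x => f.eval (F x)) = fun x => ∑ i ∈ range (f.natDegree + 1), f.coeff i * F x ^ i := by
    funext x; exact Polynomial.eval_eq_sum_range (F x)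
  rw [h2]
  exact Itg.sum _ fun i _ => (Itg.const _).mul (hF.pow i)

lemma Itg.congr {F G : (ι → k) → k} (hF : Itg X π F) (h : ∀ x ∈ X, F x = G x) : Itg X π G := by
  have h1 : (fun x : X => G x) = fun x : X => F x := by funext x; exact (h x x.2).symm
  unfold Itg
  rw [h1]
  exact hF

/-- A root of a monic polynomial with coefficients from the target. -/
lemma Itg.of_root {F : (ι → k) → k} {n : ℕ} {G : Fin n → (κ → k) → k} (hG : ∀ j, IsPol (G j))
    (h : ∀ x ∈ X, F x ^ n + ∑ j, G j (π x) * F x ^ (j : ℕ) = 0) : Itg X π F := by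
  choose p hp using hG
  refine ⟨Polynomial.X ^ n + ∑ j : Fin n, Polynomial.C (p j) * Polynomial.X ^ (j : ℕ), ?_, ?_⟩
  · refine Polynomial.monic_X_pow_add ?_
    exact Polynomial.degree_sum_fin_lt p
  · rw [Polynomial.eval₂_add, Polynomial.eval₂_pow, Polynomial.eval₂_X, Polynomial.eval₂_finsetSum]
    simp only [Polynomial.eval₂_mul, Polynomial.eval₂_C, Polynomial.eval₂_pow, Polynomial.eval₂_X]
    funext x
    rw [Pi.add_apply, Finset.sum_apply]
    have h1 := h x x.2
    simp only [hp] at h1
    exact h1

/-- A function with an integral value of a polynomial. -/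
lemma Itg.of_eval {F : (ι → k) → k} {A : Polynomial k} (hA : A.natDegree ≠ 0)
    (h : Itg X π fun x => A.eval (F x)) : Itg X π F := by
  let _ : Algebra (MvPolynomial κ k) (X → k) := (pull X π).toAlgebra
  have hA0 : A.leadingCoeff ≠ 0 := by
    intro h0
    rw [Polynomial.leadingCoeff_eq_zero] at h0
    exact hA (by rw [h0, Polynomial.natDegree_zero])
  set B : Polynomial k := Polynomial.C A.leadingCoeff⁻¹ * A with hB
  have hBm : B.Monic := by
    unfold Polynomial.Monic
    rw [hB, Polynomial.leadingCoeff_mul, Polynomial.leadingCoeff_C, inv_mul_cancel₀ hA0]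
  have hBd : B.natDegree = A.natDegree := by
    rw [hB, Polynomial.natDegree_C_mul (inv_ne_zero hA0)]
  have h1 : Itg X π fun x => B.eval (F x) := by
    have h2 : (fun x => B.eval (F x)) = fun x => A.leadingCoeff⁻¹ * A.eval (F x) := by
      funext x
      rw [hB, Polynomial.eval_mul, Polynomial.eval_C]
    rw [h2]
    exact (Itg.const _).mul h
  have h3 : Polynomial.aeval (fun x : X => F x) (B.map (MvPolynomial.C : k →+* MvPolynomial κ k)) =
      fun x : X => B.eval (F x) := by
    rw [Polynomial.aeval_def, Polynomial.eval₂_map]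
    funext x
    have h4 : Polynomial.eval₂ ((algebraMap (MvPolynomial κ k) (X → k)).comp MvPolynomial.C)
        (fun x : X => F x) B x = Polynomial.eval₂ (RingHom.id k) (F x) B := by
      rw [show Polynomial.eval₂ ((algebraMap (MvPolynomial κ k) (X → k)).comp MvPolynomial.C)
        (fun x : X => F x) B x = (Pi.evalRingHom (fun _ : X => k) x) (Polynomial.eval₂
          ((algebraMap (MvPolynomial κ k) (X → k)).comp MvPolynomial.C) (fun x : X => F x) B) from rfl,
        Polynomial.hom_eval₂]
      congr 1
      ext c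
      show MvPolynomial.eval (π x) (MvPolynomial.C c) = c
      rw [MvPolynomial.eval_C]
    rw [h4]
    rfl
  have h5 : IsIntegral (MvPolynomial κ k) (Polynomial.aeval (fun x : X => F x)
      (B.map (MvPolynomial.C : k →+* MvPolynomial κ k))) := by
    rw [h3]; exact h1
  refine IsIntegral.of_aeval_monic (hBm.map _) ?_ h5
  rw [hBm.natDegree_map, hBd]
  exact hA

end general

end Pool.Agent.U436.CT
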