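import Pool.Agent.U436.CT.Split2
import Pool.Agent.U436.CT.Span

/-!
# The powers of the curves `A (y) = F (x)` and their map to `A (z) = ∑ a j * b j`
-/

set_option autoImplicit false

namespace Pool.Agent.U436.CT

open Finset Pool.Agent.U436 Pool.Agent.U436.AS

variable {k : Type} [Field k] {N d : ℕ}

/-- The coordinates `x l`, `y l` and `s l i`. -/
abbrev CI (d N : ℕ) : Type := (Fin d ⊕ Fin d) ⊕ (Fin d × Fin N)

/-- The index of `x l`. -/
abbrev ix (l : Fin d) : CI d N := Sum.inl (Sum.inl l)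

/-- The index of `y l`. -/
abbrev iy (l : Fin d) : CI d N := Sum.inl (Sum.inr l)

/-- The index of `s l i`. -/
abbrev is (l : Fin d) (i : Fin N) : CI d N := Sum.inr (l, i)

/-- The power `C ^ d` of the curve `C : A (y) = f0 (x) + ∑ f i (s i)`, `s i * (x - P i) = 1`. -/
def cpow (A f0 : Polynomial k) (f : Fin N → Polynomial k) (P : Fin N → k) (d : ℕ) : Set (CI d N → k) :=
  {w | ∀ l, A.eval (w (iy l)) = f0.eval (w (ix l)) + ∑ i, (f i).eval (w (is l i)) ∧
    ∀ i, w (is l i) * (w (ix l) - P i) = 1}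

/-- The automorphism `x l ↦ x (σ l)`, `y l ↦ y (σ l) + α l`, `s l i ↦ s (σ l) i`. -/
def rho (σ : Equiv.Perm (Fin d)) (α : Fin d → k) (w : CI d N → k) : CI d N → k :=
  Sum.elim (Sum.elim (fun l => w (ix (σ l))) fun l => w (iy (σ l)) + α l) fun p => w (is (σ p.1) p.2)

lemma isZeroSet_cpow (A f0 : Polynomial k) (f : Fin N → Polynomial k) (P : Fin N → k) (d : ℕ) :
    IsZeroSet (cpow A f0 f P d) := by
  have h1 : IsZeroSet {w : CI d N → k | ∀ l, A.eval (w (iy l)) - (f0.eval (w (ix l)) +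
      ∑ i, (f i).eval (w (is l i))) = 0} :=
    isZeroSet_forall fun l => (isPol_eval A (IsPol.coord _)).sub ((isPol_eval f0 (IsPol.coord _)).add
      (IsPol.sum _ fun i _ => isPol_eval (f i) (IsPol.coord _)))
  have h2 : IsZeroSet {w : CI d N → k | ∀ p : Fin d × Fin N, w (is p.1 p.2) * (w (ix p.1) - P p.2) - 1 = 0} :=
    isZeroSet_forall fun p => ((IsPol.coord _).mul ((IsPol.coord _).sub (IsPol.const _))).sub (IsPol.const _)
  have h3 := h1.inter h2
  have h4 : ({w : CI d N → k | ∀ l, A.eval (w (iy l)) - (f0.eval (w (ix l)) +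
      ∑ i, (f i).eval (w (is l i))) = 0} ∩
      {w : CI d N → k | ∀ p : Fin d × Fin N, w (is p.1 p.2) * (w (ix p.1) - P p.2) - 1 = 0}) =
      cpow A f0 f P d := by
    ext w
    constructor
    · rintro ⟨h5, h6⟩ l
      exact ⟨sub_eq_zero.mp (h5 l), fun i => sub_eq_zero.mp (h6 (l, i))⟩
    · intro h
      exact ⟨fun l => sub_eq_zero.mpr (h l).1, fun p => sub_eq_zero.mpr ((h p.1).2 p.2)⟩
  rw [h4] at h3
  exact h3

lemma isPolMap_rho (σ : Equiv.Perm (Fin d)) (α : Fin d → k) :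
    IsPolMap (rho σ α : (CI d N → k) → CI d N → k) := by
  rintro ((l | l) | p)
  · exact IsPol.coord _
  · exact (IsPol.coord _).add (IsPol.const _)
  · exact IsPol.coord _

lemma rho_mem {A f0 : Polynomial k} {f : Fin N → Polynomial k} {P : Fin N → k} (hA : IsAdditive A)
    (σ : Equiv.Perm (Fin d)) {α : Fin d → k} (hα : ∀ l, A.eval (α l) = 0) {w : CI d N → k}
    (hw : w ∈ cpow A f0 f P d) : rho σ α w ∈ cpow A f0 f P d := by
  intro l
  refine ⟨?_, fun i => (hw (σ l)).2 i⟩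
  show A.eval (w (iy (σ l)) + α l) = _
  rw [hA, hα, add_zero]
  exact (hw (σ l)).1

lemma rho_rho (σ σ' : Equiv.Perm (Fin d)) (α α' : Fin d → k) (w : CI d N → k) :
    rho σ' α' (rho σ α w) = rho (σ * σ') (fun l => α (σ' l) + α' l) w := by
  funext q
  rcases q with (l | l) | p
  · rfl
  · show w (iy (σ (σ' l))) + α (σ' l) + α' l = w (iy (σ (σ' l))) + (α (σ' l) + α' l)
    rw [add_assoc]
  · rfl

lemma rho_one (w : CI d N → k) : rho 1 (fun _ => 0) w = w := by
  funext q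
  rcases q with (l | l) | p
  · rfl
  · show w (iy l) + 0 = _
    rw [add_zero]
  · rfl

lemma isAut_rho {A f0 : Polynomial k} {f : Fin N → Polynomial k} {P : Fin N → k} (hA : IsAdditive A)
    (σ : Equiv.Perm (Fin d)) {α : Fin d → k} (hα : ∀ l, A.eval (α l) = 0) :
    IsAut (cpow A f0 f P d) (rho σ α) := by
  have hα' : ∀ l, A.eval (-α (σ⁻¹ l)) = 0 := fun l => by rw [hA.map_neg, hα, neg_zero]
  refine ⟨isPolMap_rho σ α, fun w hw => rho_mem hA σ hα hw, rho σ⁻¹ fun l => -α (σ⁻¹ l), isPolMap_rho _ _,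
    fun w hw => rho_mem hA _ hα' hw, fun w _ => ?_, fun w _ => ?_⟩
  · rw [rho_rho]
    have h1 : (fun l => α (σ⁻¹ l) + -α (σ⁻¹ l)) = fun _ => (0 : k) := by
      funext l; exact add_neg_cancel _
    rw [h1, mul_inv_cancel, rho_one]
  · rw [rho_rho]
    have h1 : (fun l => -α (σ⁻¹ (σ l)) + α l) = fun _ => (0 : k) := by
      funext l
      have h2 : σ⁻¹ (σ l) = l := σ.symm_apply_apply l
      rw [h2]; exact neg_add_cancel _
    rw [h1, inv_mul_cancel, rho_one]

/-! ### The map -/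

lemma isPol_cf (i : Fin d) : IsPol fun t : Fin d → k => NT.cf t i := by
  refine ⟨(∏ j, (Polynomial.X - Polynomial.C (MvPolynomial.X j : MvPolynomial (Fin d) k))).coeff i, fun t => ?_⟩
  rw [← Polynomial.coeff_map, Polynomial.map_prod]
  simp [NT.cf]

/-- The product of the `-s l i`, that is, `1 / ∏ (P i - x l)`. -/
def invd (w : CI d N → k) (i : Fin N) : k := ∏ l, -w (is l i)

lemma isPol_prod {ι κ : Type} (t : Finset κ) {F : κ → (ι → k) → k} (hF : ∀ i ∈ t, IsPol (F i)) :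
    IsPol fun x => ∏ i ∈ t, F i x := by
  classical
  induction t using Finset.induction_on with
  | empty => simpa using IsPol.const (1 : k)
  | insert a t ha ih =>
    have h1 := (hF a (mem_insert_self a t)).mul (ih fun i hi => hF i (mem_insert_of_mem hi))
    have h2 : (fun x => ∏ i ∈ insert a t, F i x) = fun x => F a x * ∏ i ∈ t, F i x := by
      funext x
      exact Finset.prod_insert ha
    rw [h2]
    exact h1

lemma isPol_invd (i : Fin N) : IsPol fun w : CI d N → k => invd w i :=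
  isPol_prod _ fun _ _ => (IsPol.coord _).neg

lemma ne_pole {A f0 : Polynomial k} {f : Fin N → Polynomial k} {P : Fin N → k} {w : CI d N → k}
    (hw : w ∈ cpow A f0 f P d) (l : Fin d) (i : Fin N) : w (ix l) ≠ P i := by
  intro h
  have := (hw l).2 i
  rw [h, sub_self, mul_zero] at this
  exact zero_ne_one this

lemma s_eq {A f0 : Polynomial k} {f : Fin N → Polynomial k} {P : Fin N → k} {w : CI d N → k}
    (hw : w ∈ cpow A f0 f P d) (l : Fin d) (i : Fin N) : w (is l i) = (w (ix l) - P i)⁻¹ :=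
  eq_inv_of_mul_eq_one_left ((hw l).2 i)

lemma inv_dpt {A f0 : Polynomial k} {f : Fin N → Polynomial k} {P : Fin N → k} {w : CI d N → k}
    (hw : w ∈ cpow A f0 f P d) (i : Fin N) :
    (dpt P i (NT.cf fun l => w (ix l)))⁻¹ = invd w i := by
  unfold dpt invd
  rw [eval_mpoly_cf, ← Finset.prod_inv_distrib]
  refine Finset.prod_congr rfl fun l _ => ?_
  rw [s_eq hw, ← neg_sub, inv_neg]

/-- The point of `C` with the index `l`. -/
def pt (w : CI d N → k) (l : Fin d) : k × k := (w (ix l), w (iy l))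

lemma pt_mem {A f0 : Polynomial k} {f : Fin N → Polynomial k} {P : Fin N → k} {w : CI d N → k}
    (hw : w ∈ cpow A f0 f P d) (l : Fin d) : pt w l ∈ rcurve A f0 f P := by
  refine ⟨ne_pole hw l, ?_⟩
  show A.eval (w (iy l)) = _
  rw [(hw l).1]
  congr 1
  exact Finset.sum_congr rfl fun i _ => by rw [s_eq hw]; rfl

/-- The point of `C ^ d` with given components. -/
def unpt (P : Fin N → k) (u : Fin d → k × k) : CI d N → k :=
  Sum.elim (Sum.elim (fun l => (u l).1) fun l => (u l).2) fun p => ((u p.1).1 - P p.2)⁻¹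

lemma unpt_mem {A f0 : Polynomial k} {f : Fin N → Polynomial k} {P : Fin N → k} {u : Fin d → k × k}
    (hu : ∀ l, u l ∈ rcurve A f0 f P) : unpt P u ∈ cpow A f0 f P d := by
  intro l
  refine ⟨(hu l).2, fun i => ?_⟩
  show ((u l).1 - P i)⁻¹ * ((u l).1 - P i) = 1
  exact inv_mul_cancel₀ (sub_ne_zero.mpr ((hu l).1 i))

lemma unpt_pt {A f0 : Polynomial k} {f : Fin N → Polynomial k} {P : Fin N → k} {w : CI d N → k}
    (hw : w ∈ cpow A f0 f P d) : unpt P (pt w) = w := by
  funext q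
  rcases q with (l | l) | p
  · rfl
  · rfl
  · exact (s_eq hw p.1 p.2).symm

section map

variable {r0 s : ℕ} {r : Fin N → ℕ}

/-- A point of the target with all coordinates. -/
def enc (x : JJ r0 r s ⊕ JJ r0 r s → k) (z : k) : VI (JJ r0 r s) N → k :=
  Sum.elim x (Sum.elim (fun _ => z) fun i => (dAB i x)⁻¹)

lemma enc_mem {A : Polynomial k} {x : JJ r0 r s ⊕ JJ r0 r s → k} {z : k} (h : (x, z) ∈ rtarget A r0 r s) :
    enc x z ∈ vset A (pl : Fin N → JJ r0 r s) := by
  obtain ⟨h1, h2⟩ := h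
  refine ⟨?_, fun i => ?_⟩
  · have h3 : ∑ j, x (Sum.inl j) * x (Sum.inr j) = A.eval z * 1 ^ 2 := h2
    rw [one_pow, mul_one] at h3
    exact h3.symm
  · exact inv_mul_cancel₀ ((dAB_ne_iff x).mpr h1 i)

lemma exists_enc {A : Polynomial k} {y : VI (JJ r0 r s) N → k} (h : y ∈ vset A (pl : Fin N → JJ r0 r s)) :
    ∃ x z, (x, z) ∈ rtarget A r0 r s ∧ enc x z = y := by
  obtain ⟨h1, h2⟩ := h
  have h3 : ∀ i : Fin N, y (ib (pl i)) ≠ 1 := by
    intro i h4
    have := h2 i
    rw [h4, sub_self, mul_zero] at this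
    exact zero_ne_one this
  refine ⟨y ∘ Sum.inl, y iz, ⟨h3, ?_⟩, ?_⟩
  · show ∑ j, y (ia j) * y (ib j) = A.eval (y iz) * 1 ^ 2
    rw [one_pow, mul_one]
    exact h1.symm
  · funext q
    rcases q with q | (q | i)
    · rfl
    · rfl
    · exact (eq_inv_of_mul_eq_one_left (h2 i)).symm

lemma enc_inj {x x' : JJ r0 r s ⊕ JJ r0 r s → k} {z z' : k} : enc x z = enc x' z' ↔ (x, z) = (x', z') := by
  constructor
  · intro h
    have h1 : x = x' := funext fun q => congrFun h (Sum.inl q)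
    have h2 : z = z' := congrFun h iz
    rw [h1, h2]
  · intro h
    rw [(Prod.mk.inj h).1, (Prod.mk.inj h).2]

/-- The polynomial form of the map `C ^ d → V`. -/
noncomputable def ppi (PΦ : JJ r0 r s ⊕ JJ r0 r s → MvPolynomial (Fin d ⊕ Fin N) k) (c : k) (lam : Fin N → k)
    (w : CI d N → k) : VI (JJ r0 r s) N → k :=
  Sum.elim (fun q => MvPolynomial.eval (Sum.elim (NT.cf fun l => w (ix l)) (invd w)) (PΦ q))
    (Sum.elim (fun _ => ∑ l, w (iy l) - c) fun i => (lam i)⁻¹ * invd w i)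

variable {A f0 : Polynomial k} {f : Fin N → Polynomial k} {P : Fin N → k} {κ c : k} {lam : Fin N → k}
  {Φ : (Fin d → k) → JJ r0 r s ⊕ JJ r0 r s → k}
  {PΦ : JJ r0 r s ⊕ JJ r0 r s → MvPolynomial (Fin d ⊕ Fin N) k}

lemma isPolMap_ppi : IsPolMap (ppi PΦ c lam) := by
  rintro (q | (q | i))
  · show IsPol fun w : CI d N → k =>
      MvPolynomial.eval (Sum.elim (NT.cf fun l => w (ix l)) (invd w)) (PΦ q)
    have h1 : IsPol fun y : Fin d ⊕ Fin N → k => MvPolynomial.eval y (PΦ q) := ⟨PΦ q, fun _ => rfl⟩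
    refine h1.comp (Φ := fun w : CI d N → k => Sum.elim (NT.cf fun l => w (ix l)) (invd w)) ?_
    rintro (l | i)
    · exact (isPol_cf l).comp (Φ := fun (w : CI d N → k) l => w (ix l)) fun l => IsPol.coord _
    · exact isPol_invd i
  · exact (IsPol.sum _ fun l _ => IsPol.coord _).sub (IsPol.const _)
  · exact (IsPol.const _).mul (isPol_invd i)

lemma ppi_eq (hPΦ : ∀ q (a : Fin d → k), (∀ i, dpt P i a ≠ 0) →
      Φ a q = MvPolynomial.eval (Sum.elim a fun i => (dpt P i a)⁻¹) (PΦ q))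
    (hD : ∀ a i, dAB i (Φ a) = lam i * dpt P i a) {w : CI d N → k} (hw : w ∈ cpow A f0 f P d) :
    ppi PΦ c lam w = enc (rmap Φ c (pt w)).1 (rmap Φ c (pt w)).2 := by
  have hne : ∀ i, dpt P i (NT.cf fun l => w (ix l)) ≠ 0 := (dpt_ne _).mpr fun l i => ne_pole hw l i
  have hinv : (fun i => (dpt P i (NT.cf fun l => w (ix l)))⁻¹) = invd w := by
    funext i; exact inv_dpt hw i
  funext q
  rcases q with q | (q | i)
  · show MvPolynomial.eval (Sum.elim (NT.cf fun l => w (ix l)) (invd w)) (PΦ q) =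
      Φ (NT.cf fun l => w (ix l)) q
    rw [hPΦ q _ hne, hinv]
  · rfl
  · show (lam i)⁻¹ * invd w i = (dAB i (Φ (NT.cf fun l => w (ix l))))⁻¹
    rw [hD, mul_inv, inv_dpt hw]

end map

end Pool.Agent.U436.CT
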