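import Pool.Agent.U436.CT.Main

/-!
# The theorem with the orders of the poles
-/

set_option autoImplicit false

namespace Pool.Agent.U436.CT

open Finset Pool.Agent.U436 Pool.Agent.U436.AS

theorem weil_algebraic_orders {k : Type} [Field k] [IsAlgClosed k] {K : Type} [Field K] [CharZero K]
    {T : Theory k K} (hT : T.Laws) {A : Polynomial k} (hA : IsAdditive A) (hA0 : A ≠ 0) {N d : ℕ}
    {f0 : Polynomial k} {f : Fin N → Polynomial k} {P : Fin N → k} (hP : Function.Injective P)
    (hm0 : (f0.natDegree : k) ≠ 0) (hm : ∀ i, ((f i).natDegree : k) ≠ 0)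
    (hd : d + 1 = f0.natDegree + ∑ i, ((f i).natDegree + 1)) (he : Even d) (l0 : Fin d)
    (x : T.H (cpow A f0 f P d))
    (h1 : ∀ (σ : Equiv.Perm (Fin d)) (α : Fin d → k), (∀ l, A.eval (α l) = 0) → ∑ l, α l = 0 →
      T.act _ (rho σ α) x = x)
    (h2 : ∑ ζ ∈ zer A, T.act _ (rho 1 (Pi.single l0 ζ)) x = 0) :
    x ∈ T.alg (cpow A f0 f P d) := by
  have h01 : 1 ≤ f0.natDegree := by
    by_contra h
    exact hm0 (by rw [show f0.natDegree = 0 by omega, Nat.cast_zero])
  have hi1 : ∀ i, 1 ≤ (f i).natDegree := by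
    intro i
    by_contra h
    exact hm i (by rw [show (f i).natDegree = 0 by omega, Nat.cast_zero])
  set r0 : ℕ := (f0.natDegree - 1) / 2 with hr0
  set ε0 : ℕ := (f0.natDegree - 1) % 2 with hε0
  set r : Fin N → ℕ := fun i => ((f i).natDegree - 1) / 2 with hr
  set ε : Fin N → ℕ := fun i => ((f i).natDegree - 1) % 2 with hε
  have e0 : f0.natDegree = r0 + ε0 + r0 + 1 := by omega
  have ei : ∀ i, (f i).natDegree = r i + ε i + r i + 1 := by
    intro i
    have := hi1 i
    simp only [hr, hε]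
    omega
  have hd' : d = d2 r0 ε0 r ε := by
    have h3 : ∑ i : Fin N ⊕ Fin 0, ee r ε i = ∑ i : Fin N, ((f i).natDegree + 1) := by
      rw [Fintype.sum_sum_type]
      simp only [Finset.univ_eq_empty, Finset.sum_empty, add_zero]
      exact Finset.sum_congr rfl fun i _ => by rw [ei i]; rfl
    show d = r0 + ε0 + r0 + ∑ i : Fin N ⊕ Fin 0, ee r ε i
    rw [h3]
    omega
  have hs : ∃ s, ε0 + ∑ i, ε i = 2 * s := by
    obtain ⟨t, ht⟩ := he
    have h4 : ∑ i, ((f i).natDegree + 1) = ∑ i, ε i + 2 * ∑ i, (r i + 1) := by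
      rw [Finset.mul_sum, ← Finset.sum_add_distrib]
      exact Finset.sum_congr rfl fun i _ => by rw [ei i]; ring
    exact ⟨t - r0 - ∑ i, (r i + 1), by omega⟩
  obtain ⟨s, hs⟩ := hs
  subst hd'
  exact weil_algebraic hT hA hA0 (by omega) (fun i => by simp only [hε]; omega) hs e0 (by rw [← e0]; exact hm0) ei
    (fun i => by rw [← ei i]; exact hm i) hP l0 x h1 h2

end Pool.Agent.U436.CT
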