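import Pool.Agent.U436.CT.Quadric

/-!
# The open parts `b j ≠ 0` are line bundles
-/

set_option autoImplicit false

namespace Pool.Agent.U436.CT

open Finset Pool.Agent.U436.AS

variable {k : Type} [Field k] {J : Type} [Fintype J] [DecidableEq J] {N : ℕ}

/-- Forget `z` and `a j`. -/
def pr (j : J) (u : VI J N ⊕ Unit → k) : VI J N ⊕ Unit → k :=
  Function.update (Function.update u (Sum.inl iz) 0) (Sum.inl (ia j)) 0

/-- Put in `z` and `a j`. -/
def qr (A : Polynomial k) (j : J) (w : (VI J N ⊕ Unit) ⊕ Unit → k) : VI J N ⊕ Unit → k :=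
  Function.update (Function.update (w ∘ Sum.inl) (Sum.inl iz) (w (Sum.inr ()))) (Sum.inl (ia j))
    (w (Sum.inl (Sum.inr ())) * (A.eval (w (Sum.inr ())) -
      ∑ i, w (Sum.inl (Sum.inl (ia i))) * w (Sum.inl (Sum.inl (ib i)))))

/-- The base. -/
def base (pl : Fin N → J) (l : List J) (j : J) : Set (VI J N ⊕ Unit → k) :=
  ({u | u (Sum.inl iz) = 0} ∩ {u | u (Sum.inl (ia j)) = 0}) ∩
    (({u | ∀ i, u (Sum.inl (iv i)) * (1 - u (Sum.inl (ib (pl i)))) - 1 = 0} ∩
      {u | ∀ i : {i // i ∈ l}, u (Sum.inl (ib i.1)) = 0}) ∩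
        {u | u (Sum.inr ()) * u (Sum.inl (ib j)) - 1 = 0})

omit [Fintype J] in
lemma isZeroSet_base (pl : Fin N → J) (l : List J) (j : J) : IsZeroSet (base (k := k) pl l j) :=
  ((isZeroSet_eq (IsPol.coord _)).inter (isZeroSet_eq (IsPol.coord _))).inter
    (((isZeroSet_forall fun i => ((IsPol.coord _).mul ((IsPol.const _).sub (IsPol.coord _))).sub
      (IsPol.const _)).inter (isZeroSet_forall fun i => IsPol.coord _)).inter
        (isZeroSet_eq (((IsPol.coord _).mul (IsPol.coord _)).sub (IsPol.const _))))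

omit [Fintype J] in
lemma isPolMap_pr (j : J) : IsPolMap (pr j : (VI J N ⊕ Unit → k) → VI J N ⊕ Unit → k) := by
  intro q
  unfold pr
  by_cases h1 : q = Sum.inl (ia j)
  · subst h1
    simp only [Function.update_self]
    exact IsPol.const _
  · by_cases h2 : q = Sum.inl iz
    · subst h2
      simp only [Function.update_of_ne h1, Function.update_self]
      exact IsPol.const _
    · simp only [Function.update_of_ne h1, Function.update_of_ne h2]
      exact IsPol.coord _

lemma isPolMap_qr (A : Polynomial k) (j : J) :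
    IsPolMap (qr A j : ((VI J N ⊕ Unit) ⊕ Unit → k) → VI J N ⊕ Unit → k) := by
  intro q
  unfold qr
  by_cases h1 : q = Sum.inl (ia j)
  · subst h1
    simp only [Function.update_self]
    exact (IsPol.coord _).mul ((isPol_eval A (IsPol.coord _)).sub
      (IsPol.sum _ fun i _ => (IsPol.coord _).mul (IsPol.coord _)))
  · by_cases h2 : q = Sum.inl iz
    · subst h2
      simp only [Function.update_of_ne h1, Function.update_self]
      exact IsPol.coord _
    · simp only [Function.update_of_ne h1, Function.update_of_ne h2]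
      exact IsPol.coord _

omit [Fintype J] in
lemma pr_of_ne {j : J} {u : VI J N ⊕ Unit → k} {q : VI J N ⊕ Unit} (h1 : q ≠ Sum.inl (ia j))
    (h2 : q ≠ Sum.inl iz) : pr j u q = u q := by
  unfold pr
  rw [Function.update_of_ne h1, Function.update_of_ne h2]

omit [Fintype J] in
lemma pr_ia (j : J) (u : VI J N ⊕ Unit → k) : pr j u (Sum.inl (ia j)) = 0 := Function.update_self _ _ _

omit [Fintype J] in
lemma pr_iz (j : J) (u : VI J N ⊕ Unit → k) : pr j u (Sum.inl iz) = 0 := by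
  unfold pr
  rw [Function.update_of_ne (by rintro ⟨⟩), Function.update_self]

lemma qr_of_ne {A : Polynomial k} {j : J} {w : (VI J N ⊕ Unit) ⊕ Unit → k} {q : VI J N ⊕ Unit}
    (h1 : q ≠ Sum.inl (ia j)) (h2 : q ≠ Sum.inl iz) : qr A j w q = w (Sum.inl q) := by
  unfold qr
  rw [Function.update_of_ne h1, Function.update_of_ne h2]
  rfl

lemma qr_iz (A : Polynomial k) (j : J) (w : (VI J N ⊕ Unit) ⊕ Unit → k) :
    qr A j w (Sum.inl iz) = w (Sum.inr ()) := by
  unfold qr
  rw [Function.update_of_ne (by rintro ⟨⟩), Function.update_self]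

lemma qr_ia (A : Polynomial k) (j : J) (w : (VI J N ⊕ Unit) ⊕ Unit → k) :
    qr A j w (Sum.inl (ia j)) = w (Sum.inl (Sum.inr ())) * (A.eval (w (Sum.inr ())) -
      ∑ i, w (Sum.inl (Sum.inl (ia i))) * w (Sum.inl (Sum.inl (ib i)))) := Function.update_self _ _ _

lemma ib_ne_ia {i j : J} : (Sum.inl (ib i) : VI J N ⊕ Unit) ≠ Sum.inl (ia j) := by rintro ⟨⟩

lemma ib_ne_iz {i : J} : (Sum.inl (ib i) : VI J N ⊕ Unit) ≠ Sum.inl iz := by rintro ⟨⟩

lemma iv_ne_ia {i : Fin N} {j : J} : (Sum.inl (iv i) : VI J N ⊕ Unit) ≠ Sum.inl (ia j) := by rintro ⟨⟩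

lemma iv_ne_iz {i : Fin N} : (Sum.inl (iv i) : VI J N ⊕ Unit) ≠ Sum.inl iz := by rintro ⟨⟩

lemma ia_ne_iz {i : J} : (Sum.inl (ia i) : VI J N ⊕ Unit) ≠ Sum.inl iz := by rintro ⟨⟩

lemma ia_ne_ia {i j : J} (h : i ≠ j) : (Sum.inl (ia i) : VI J N ⊕ Unit) ≠ Sum.inl (ia j) := by
  intro h'
  exact h (Sum.inl_injective (Sum.inl_injective (Sum.inl_injective h')))

lemma un_ne {q : VI J N} : (Sum.inr () : VI J N ⊕ Unit) ≠ Sum.inl q := by rintro ⟨⟩

/-- The automorphisms `z ↦ z + ζ` of the part `b j ≠ 0`. -/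
theorem isLineAut (A : Polynomial k) (pl : Fin N → J) (l : List J) (j : J) (ζ : k) :
    IsLineAut (opn (vl A pl l) fun w => w (ib j)) (CT.ext (tau ζ)) := by
  refine ⟨VI J N ⊕ Unit, inferInstance, base pl l j, pr j, fun u => u (Sum.inl iz), qr A j,
    isZeroSet_base pl l j, isPolMap_pr j, IsPol.coord _, isPolMap_qr A j, ?_, ?_, ?_, ?_⟩
  · rintro u ⟨h1, h2⟩
    rw [mem_vl] at h1
    obtain ⟨⟨h3, h4⟩, h5⟩ := h1
    refine ⟨⟨pr_iz j u, pr_ia j u⟩, ⟨fun i => ?_, fun i => ?_⟩, ?_⟩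
    · rw [pr_of_ne iv_ne_ia iv_ne_iz, pr_of_ne ib_ne_ia ib_ne_iz]
      exact sub_eq_zero.mpr (h4 i)
    · rw [pr_of_ne ib_ne_ia ib_ne_iz]
      exact h5 i.1 i.2
    · show pr j u (Sum.inr ()) * pr j u (Sum.inl (ib j)) - 1 = 0
      rw [pr_of_ne un_ne un_ne, pr_of_ne ib_ne_ia ib_ne_iz]
      exact sub_eq_zero.mpr h2
  · rintro w ⟨⟨h1, h2⟩, ⟨h3, h4⟩, h5⟩
    have h5' : w (Sum.inl (Sum.inr ())) * w (Sum.inl (Sum.inl (ib j))) = 1 := sub_eq_zero.mp h5
    have h2' : w (Sum.inl (Sum.inl (ia j))) = 0 := h2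
    have h1' : w (Sum.inl (Sum.inl iz)) = 0 := h1
    refine ⟨⟨?_, ?_⟩, ?_, qr_iz A j w⟩
    · rw [mem_vl]
      refine ⟨⟨?_, fun i => ?_⟩, fun i hi => ?_⟩
      · show A.eval (qr A j w (Sum.inl iz)) = ∑ i, qr A j w (Sum.inl (ia i)) * qr A j w (Sum.inl (ib i))
        have h6 : ∀ i, qr A j w (Sum.inl (ia i)) * qr A j w (Sum.inl (ib i)) =
            w (Sum.inl (Sum.inl (ia i))) * w (Sum.inl (Sum.inl (ib i))) +
              if i = j then w (Sum.inl (Sum.inr ())) * (A.eval (w (Sum.inr ())) -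
                ∑ i, w (Sum.inl (Sum.inl (ia i))) * w (Sum.inl (Sum.inl (ib i)))) *
                  w (Sum.inl (Sum.inl (ib j))) else 0 := by
          intro i
          rw [qr_of_ne ib_ne_ia ib_ne_iz]
          by_cases hij : i = j
          · subst hij
            rw [qr_ia, if_pos rfl, h2']
            ring
          · rw [qr_of_ne (ia_ne_ia hij) ia_ne_iz, if_neg hij, add_zero]
        rw [Finset.sum_congr rfl fun i _ => h6 i, Finset.sum_add_distrib, Finset.sum_ite_eq' univ j,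
          if_pos (mem_univ _), qr_iz]
        linear_combination (-(A.eval (w (Sum.inr ())) -
          ∑ i, w (Sum.inl (Sum.inl (ia i))) * w (Sum.inl (Sum.inl (ib i))))) * h5'
      · show qr A j w (Sum.inl (iv i)) * (1 - qr A j w (Sum.inl (ib (pl i)))) = 1
        rw [qr_of_ne iv_ne_ia iv_ne_iz, qr_of_ne ib_ne_ia ib_ne_iz]
        exact sub_eq_zero.mp (h3 i)
      · show qr A j w (Sum.inl (ib i)) = 0
        rw [qr_of_ne ib_ne_ia ib_ne_iz]
        exact h4 ⟨i, hi⟩
    · show qr A j w (Sum.inr ()) * qr A j w (Sum.inl (ib j)) = 1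
      rw [qr_of_ne un_ne un_ne, qr_of_ne ib_ne_ia ib_ne_iz]
      exact h5'
    · funext q
      by_cases hq : q = Sum.inl (ia j)
      · subst hq
        rw [pr_ia]; exact h2'.symm
      · by_cases hq' : q = Sum.inl iz
        · subst hq'
          rw [pr_iz]; exact h1'.symm
        · rw [pr_of_ne hq hq', qr_of_ne hq hq']
          rfl
  · rintro u ⟨h1, h2⟩
    rw [mem_vl] at h1
    obtain ⟨⟨h3, h4⟩, h5⟩ := h1
    have h3' : A.eval (u (Sum.inl iz)) = ∑ i, u (Sum.inl (ia i)) * u (Sum.inl (ib i)) := h3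
    have h2' : u (Sum.inr ()) * u (Sum.inl (ib j)) = 1 := h2
    funext q
    by_cases hq : q = Sum.inl (ia j)
    · subst hq
      rw [qr_ia]
      show pr j u (Sum.inr ()) * (A.eval (u (Sum.inl iz)) -
        ∑ i, pr j u (Sum.inl (ia i)) * pr j u (Sum.inl (ib i))) = _
      have h6 : ∀ i, pr j u (Sum.inl (ia i)) * pr j u (Sum.inl (ib i)) =
          u (Sum.inl (ia i)) * u (Sum.inl (ib i)) -
            if i = j then u (Sum.inl (ia j)) * u (Sum.inl (ib j)) else 0 := by
        intro i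
        rw [pr_of_ne ib_ne_ia ib_ne_iz]
        by_cases hij : i = j
        · subst hij
          rw [pr_ia, if_pos rfl]
          ring
        · rw [pr_of_ne (ia_ne_ia hij) ia_ne_iz, if_neg hij, sub_zero]
      rw [Finset.sum_congr rfl fun i _ => h6 i, Finset.sum_sub_distrib, Finset.sum_ite_eq' univ j,
        if_pos (mem_univ _), pr_of_ne un_ne un_ne, ← h3']
      linear_combination u (Sum.inl (ia j)) * h2'
    · by_cases hq' : q = Sum.inl iz
      · subst hq'
        rw [qr_iz]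
        rfl
      · rw [qr_of_ne hq hq']
        exact pr_of_ne hq hq'
  · rintro u -
    funext q
    by_cases hq : q = Sum.inl (ia j)
    · subst hq
      rw [pr_ia, pr_ia]
    · by_cases hq' : q = Sum.inl iz
      · subst hq'
        rw [pr_iz, pr_iz]
      · rw [pr_of_ne hq hq', pr_of_ne hq hq']
        rcases q with q | q
        · show tau ζ (u ∘ Sum.inl) q = _
          exact Function.update_of_ne (fun h => hq' (by rw [h])) _ _
        · rfl

end Pool.Agent.U436.CT
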