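import Pool.Agent.U436.CT.Fin

/-!
# The Weil classes on the powers of the curves `A (y) = F (x)` are algebraic
-/

set_option autoImplicit false

namespace Pool.Agent.U436.CT

open Finset Pool.Agent.U436 Pool.Agent.U436.AS

variable {k : Type} [Field k] {N d r0 s : ℕ} {r : Fin N → ℕ}

section

variable {A f0 : Polynomial k} {f : Fin N → Polynomial k} {P : Fin N → k} {κ c : k} {lam : Fin N → k}
  {Φ : (Fin d → k) → JJ r0 r s ⊕ JJ r0 r s → k} {Ψ : (JJ r0 r s ⊕ JJ r0 r s → k) → Fin d → k}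
  {PΦ : JJ r0 r s ⊕ JJ r0 r s → MvPolynomial (Fin d ⊕ Fin N) k}
  {PΨ : Fin d → MvPolynomial ((JJ r0 r s ⊕ JJ r0 r s) ⊕ Fin N) k}

/-- The coefficients are functions on the target. -/
lemma cf_eq_pol (hPΦ : ∀ q (a : Fin d → k), (∀ i, dpt P i a ≠ 0) →
      Φ a q = MvPolynomial.eval (Sum.elim a fun i => (dpt P i a)⁻¹) (PΦ q))
    (hD : ∀ a i, dAB i (Φ a) = lam i * dpt P i a) (hlam : ∀ i, lam i ≠ 0)
    (hPΨ : ∀ q (x : JJ r0 r s ⊕ JJ r0 r s → k), (∀ i, dAB i x ≠ 0) →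
      Ψ x q = MvPolynomial.eval (Sum.elim x fun i => (dAB i x)⁻¹) (PΨ q))
    (hΨΦ : ∀ a, (∀ i, dpt P i a ≠ 0) → Ψ (Φ a) = a) (q : Fin d) {w : CI d N → k}
    (hw : w ∈ cpow A f0 f P d) :
    NT.cf (fun l => w (ix l)) q =
      MvPolynomial.eval (ppi PΦ c lam w) (MvPolynomial.rename (Sum.map id Sum.inr) (PΨ q)) := by
  have hne : ∀ i, dpt P i (NT.cf fun l => w (ix l)) ≠ 0 := (dpt_ne _).mpr fun l i => ne_pole hw l i
  have hne' : ∀ i, dAB i (Φ (NT.cf fun l => w (ix l))) ≠ 0 := fun i => by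
    rw [hD]; exact mul_ne_zero (hlam i) (hne i)
  have h1 : Ψ (Φ (NT.cf fun l => w (ix l))) q = NT.cf (fun l => w (ix l)) q := by rw [hΨΦ _ hne]
  rw [← h1, hPΨ _ _ hne', MvPolynomial.eval_rename, ppi_eq hPΦ hD hw]
  congr 1
  congr 1
  funext t
  rcases t with t | t
  · rfl
  · rfl

theorem isFiniteMap_ppi (hA : IsAdditive A) (hA0 : A ≠ 0) (hc : A.eval c = κ)
    (hΦ : IsRegEquiv (dpt P) dAB Φ)
    (hform : ∀ t : Fin d → k, (∀ l i, t l ≠ P i) →
        ∑ l, (f0.eval (t l) + ∑ i, (f i).eval ((t l - P i)⁻¹)) =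
          κ + ∑ j, Φ (NT.cf t) (Sum.inl j) * Φ (NT.cf t) (Sum.inr j))
    (hPΦ : ∀ q (a : Fin d → k), (∀ i, dpt P i a ≠ 0) →
      Φ a q = MvPolynomial.eval (Sum.elim a fun i => (dpt P i a)⁻¹) (PΦ q))
    (hD : ∀ a i, dAB i (Φ a) = lam i * dpt P i a) (hlam : ∀ i, lam i ≠ 0)
    (hPΨ : ∀ q (x : JJ r0 r s ⊕ JJ r0 r s → k), (∀ i, dAB i x ≠ 0) →
      Ψ x q = MvPolynomial.eval (Sum.elim x fun i => (dAB i x)⁻¹) (PΨ q))
    (hΨΦ : ∀ a, (∀ i, dpt P i a ≠ 0) → Ψ (Φ a) = a) :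
    IsFiniteMap (cpow A f0 f P d) (vset A (pl : Fin N → JJ r0 r s)) (ppi PΦ c lam) := by
  have hx : ∀ l, Itg (cpow A f0 f P d) (ppi PΦ c lam : _ → VI (JJ r0 r s) N → k) fun w => w (ix l) := by
    intro l
    refine Itg.of_root (n := d) (G := fun j y => MvPolynomial.eval y
      (MvPolynomial.rename (Sum.map id Sum.inr) (PΨ j))) (fun j => ⟨_, fun _ => rfl⟩) fun w hw => ?_
    have h1 : (mpoly (NT.cf fun l => w (ix l))).eval (w (ix l)) = 0 := by
      rw [eval_mpoly_cf]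
      exact Finset.prod_eq_zero (mem_univ l) (sub_self _)
    unfold mpoly at h1
    rw [Polynomial.eval_add, Polynomial.eval_pow, Polynomial.eval_X, Polynomial.eval_finsetSum] at h1
    simp only [Polynomial.eval_mul, Polynomial.eval_C, Polynomial.eval_pow, Polynomial.eval_X] at h1
    rw [← h1]
    congr 1
    refine Finset.sum_congr rfl fun j _ => ?_
    rw [cf_eq_pol hPΦ hD hlam hPΨ hΨΦ j hw]
  have hs : ∀ l i, Itg (cpow A f0 f P d) (ppi PΦ c lam : _ → VI (JJ r0 r s) N → k) fun w => w (is l i) := by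
    intro l i
    have h1 : Itg (cpow A f0 f P d) (ppi PΦ c lam : _ → VI (JJ r0 r s) N → k) fun w => invd w i := by
      refine Itg.of_pol (G := fun y => lam i * y (iv i)) ((IsPol.const _).mul (IsPol.coord _)) fun w _ => ?_
      show invd w i = lam i * ((lam i)⁻¹ * invd w i)
      rw [← mul_assoc, mul_inv_cancel₀ (hlam i), one_mul]
    have h2 := (h1.mul (Itg.prod (Finset.univ.erase l) fun l' _ => (Itg.const (P i)).sub (hx l'))).neg
    refine h2.congr fun w hw => ?_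
    show -(invd w i * ∏ l' ∈ Finset.univ.erase l, (P i - w (ix l'))) = w (is l i)
    have h3 : invd w i = -w (is l i) * ∏ l' ∈ Finset.univ.erase l, -w (is l' i) :=
      (Finset.mul_prod_erase Finset.univ (fun l' => -w (is l' i)) (mem_univ l)).symm
    rw [h3, mul_assoc, ← Finset.prod_mul_distrib, Finset.prod_eq_one fun l' _ => ?_]
    · ring
    · have := (hw l').2 i
      linear_combination this
  have hdeg : A.natDegree ≠ 0 := by
    intro h0
    obtain ⟨a, rfl⟩ := Polynomial.natDegree_eq_zero.mp h0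
    have := hA.map_zero
    rw [Polynomial.eval_C] at this
    exact hA0 (by rw [this, Polynomial.C_0])
  refine ⟨isPolMap_ppi, fun w hw => ?_, ?_⟩
  · rw [ppi_eq hPΦ hD hw]
    exact enc_mem (rmap_mem hA hc hΦ hform (pt_mem hw))
  · rintro ((l | l) | ⟨l, i⟩)
    · exact hx l
    · refine Itg.of_eval (F := fun w => w (iy l)) hdeg (Itg.congr (F := fun w => f0.eval (w (ix l)) +
        ∑ i, (f i).eval (w (is l i))) (((hx l).eval f0).add (Itg.sum _ fun i _ => (hs l i).eval (f i))) ?_)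
      exact fun w hw => (hw l).1.symm
    · exact hs l i

end

/-- The finite group of the covering. -/
def Gam (A : Polynomial k) (d : ℕ) : Type :=
  {p : Equiv.Perm (Fin d) × (Fin d → {ζ : k // ζ ∈ zer A}) // ∑ l, (p.2 l : k) = 0}

instance (A : Polynomial k) (d : ℕ) : Finite (Gam A d) := by
  unfold Gam; infer_instance

/-- **The Weil classes on `C ^ d` are algebraic.** -/
theorem weil_algebraic [IsAlgClosed k] {K : Type} [Field K] [CharZero K] {T : Theory k K}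
    (hT : T.Laws) {ε0 : ℕ} {ε : Fin N → ℕ} {A : Polynomial k} (hA : IsAdditive A) (hA0 : A ≠ 0)
    (hε0 : ε0 ≤ 1) (hε : ∀ i, ε i ≤ 1) (hs : ε0 + ∑ i, ε i = 2 * s)
    {f0 : Polynomial k} {f : Fin N → Polynomial k}
    (hf0 : f0.natDegree = r0 + ε0 + r0 + 1) (hm0 : ((r0 + ε0 + r0 + 1 : ℕ) : k) ≠ 0)
    (hf : ∀ i, (f i).natDegree = r i + ε i + r i + 1) (hm : ∀ i, ((r i + ε i + r i + 1 : ℕ) : k) ≠ 0)
    {P : Fin N → k} (hP : Function.Injective P) (l0 : Fin (d2 r0 ε0 r ε))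
    (x : T.H (cpow A f0 f P (d2 r0 ε0 r ε)))
    (h1 : ∀ (σ : Equiv.Perm (Fin (d2 r0 ε0 r ε))) (α : Fin (d2 r0 ε0 r ε) → k), (∀ l, A.eval (α l) = 0) →
      ∑ l, α l = 0 → T.act _ (rho σ α) x = x)
    (h2 : ∑ ζ ∈ zer A, T.act _ (rho 1 (Pi.single l0 ζ)) x = 0) :
    x ∈ T.alg (cpow A f0 f P (d2 r0 ε0 r ε)) := by
  obtain ⟨κ, lam, Φ, hlam, hΦ, hD, hform⟩ := exists_split' (s := s) hε0 hε hs hf0 hm0 hf hm hP
  obtain ⟨c, hc⟩ := hA.surj hA0 κ
  obtain ⟨hΦr, hΦD, Ψ, hΨr, hΨD, hΨΦ, hΦΨ⟩ := id hΦ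
  choose PΦ hPΦ using hΦr
  choose PΨ hPΨ using hΨr
  let X : Set (CI (d2 r0 ε0 r ε) N → k) := cpow A f0 f P (d2 r0 ε0 r ε)
  let Y : Set (VI (JJ r0 r s) N → k) := vset A (pl : Fin N → JJ r0 r s)
  let π : (CI (d2 r0 ε0 r ε) N → k) → VI (JJ r0 r s) N → k := ppi PΦ c lam
  have hXz : IsZeroSet X := isZeroSet_cpow A f0 f P _
  have hYz : IsZeroSet Y := isZeroSet_vset A _
  have hfin : IsFiniteMap X Y π := isFiniteMap_ppi hA hA0 hc hΦ hform hPΦ hD hlam hPΨ hΨΦ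
  have hd : 1 ≤ d2 r0 ε0 r ε := by have := l0.pos; omega
  have hπe : ∀ w ∈ X, π w = enc (rmap Φ c (pt w)).1 (rmap Φ c (pt w)).2 := fun w hw => ppi_eq hPΦ hD hw
  have hsurj : ∀ y ∈ Y, ∃ w ∈ X, π w = y := by
    intro y hy
    obtain ⟨x', z, hxz, rfl⟩ := exists_enc hy
    obtain ⟨u, hu, hux⟩ := rmap_surj hA hA0 hd hc hΦ hform hxz
    refine ⟨unpt P u, unpt_mem hu, ?_⟩
    rw [hπe _ (unpt_mem hu)]
    have h3 : pt (unpt P u) = u := rfl
    rw [h3, hux]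
  have hfib : ∀ w ∈ X, ∀ w' ∈ X, π w = π w' ↔
      ∃ γ : Gam A (d2 r0 ε0 r ε), w' = rho γ.1.1 (fun l => (γ.1.2 l : k)) w := by
    intro w hw w' hw'
    rw [hπe w hw, hπe w' hw', enc_inj]
    change rmap Φ c (pt w) = rmap Φ c (pt w') ↔ _
    rw [rmap_eq_iff hA hΦ (pt_mem hw) (pt_mem hw')]
    constructor
    · rintro ⟨σ, α, hα, hα0, h⟩
      refine ⟨⟨(σ, fun l => ⟨α l, (mem_zer hA0).mpr (hα l)⟩), hα0⟩, ?_⟩
      rw [← unpt_pt hw']
      funext q
      rcases q with (l | l) | ⟨l, i⟩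
      · exact congrArg Prod.fst (h l)
      · exact congrArg Prod.snd (h l)
      · show ((pt w' l).1 - P i)⁻¹ = w (is (σ l) i)
        rw [h l, s_eq hw]
        rfl
    · rintro ⟨γ, rfl⟩
      refine ⟨γ.1.1, fun l => (γ.1.2 l : k), fun l => (mem_zer hA0).mp (γ.1.2 l).2, γ.2, fun l => rfl⟩
  refine hT.quotient X Y π (Gam A (d2 r0 ε0 r ε)) (fun γ => rho γ.1.1 fun l => (γ.1.2 l : k)) inferInstance
    hXz hYz hfin hsurj (fun γ => isAut_rho hA _ fun l => (mem_zer hA0).mp (γ.1.2 l).2) hfib x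
    (fun γ => h1 _ _ (fun l => (mem_zer hA0).mp (γ.1.2 l).2) γ.2) ?_
  -- the direct image has norm zero
  refine good_vset hT hA hA0 pl _ ?_
  rw [nrm_apply]
  have h3 : ∀ ζ ∈ zer A, T.act Y (tau ζ) (T.push X Y π x) =
      T.push X Y π (T.act X (rho 1 (Pi.single l0 ζ)) x) := by
    intro ζ hζ
    have hζ' := (mem_zer hA0).mp hζ
    have hα : ∀ l, A.eval ((Pi.single l0 ζ : Fin (d2 r0 ε0 r ε) → k) l) = 0 := by
      intro l
      by_cases hl : l = l0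
      · subst hl
        rw [Pi.single_eq_same, hζ']
      · rw [Pi.single_eq_of_ne hl, hA.map_zero]
    refine (hT.push_act X Y π (rho 1 (Pi.single l0 ζ)) (tau ζ) hXz hYz hfin (isAut_rho hA 1 hα)
      (isAut_tau (l := []) hA hζ') (fun w _ => ?_) x).symm
    funext q
    rcases q with q | (q | i)
    · show MvPolynomial.eval _ (PΦ q) = tau ζ (π w) (Sum.inl q)
      have : tau ζ (π w) (Sum.inl q) = π w (Sum.inl q) := Function.update_of_ne (by rintro ⟨⟩) _ _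
      rw [this]
      rfl
    · have : tau ζ (π w) iz = π w iz + ζ := tau_iz ζ _
      show ∑ l, (w (iy l) + (Pi.single l0 ζ : Fin (d2 r0 ε0 r ε) → k) l) - c = tau ζ (π w) iz
      rw [this, Finset.sum_add_distrib, Finset.sum_pi_single']
      show _ = ∑ l, w (iy l) - c + ζ
      rw [if_pos (mem_univ _)]
      ring
    · show (lam i)⁻¹ * invd w i = tau ζ (π w) (iv i)
      rw [tau_iv]
      rfl
  rw [Finset.sum_congr rfl h3, ← map_sum, h2, map_zero]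

end Pool.Agent.U436.CT
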