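import Pool.Agent.U436.AS.Split

/-!
# The normal form with the values at the poles
-/

set_option autoImplicit false

namespace Pool.Agent.U436.CT

open Finset Pool.Agent.U436 Pool.Agent.U436.AS

variable {k : Type} [Field k] {N : ℕ} {r0 ε0 s : ℕ} {r ε : Fin N → ℕ}

/-- The normal form for an even number `d`, with the values at the poles. -/
theorem exists_split' [IsAlgClosed k] (hε0 : ε0 ≤ 1) (hε : ∀ i, ε i ≤ 1) (hs : ε0 + ∑ i, ε i = 2 * s)
    {f0 : Polynomial k} {f : Fin N → Polynomial k}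
    (hf0 : f0.natDegree = r0 + ε0 + r0 + 1) (hm0 : ((r0 + ε0 + r0 + 1 : ℕ) : k) ≠ 0)
    (hf : ∀ i, (f i).natDegree = r i + ε i + r i + 1) (hm : ∀ i, ((r i + ε i + r i + 1 : ℕ) : k) ≠ 0)
    {P : Fin N → k} (hP : Function.Injective P) :
    ∃ (κ : k) (lam : Fin N → k) (Φ : (Fin (d2 r0 ε0 r ε) → k) → JJ r0 r s ⊕ JJ r0 r s → k),
      (∀ i, lam i ≠ 0) ∧ IsRegEquiv (dpt P) dAB Φ ∧ (∀ a i, dAB i (Φ a) = lam i * dpt P i a) ∧
      ∀ t : Fin (d2 r0 ε0 r ε) → k, (∀ l i, t l ≠ P i) →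
        ∑ l, (f0.eval (t l) + ∑ i, (f i).eval ((t l - P i)⁻¹)) =
          κ + ∑ j, Φ (NT.cf t) (Sum.inl j) * Φ (NT.cf t) (Sum.inr j) := by
  have hP' : Function.Injective (Sum.elim P (Fin.elim0 : Fin 0 → k)) := by
    rintro (i | i) (j | j) h
    · rw [hP h]
    · exact j.elim0
    · exact i.elim0
    · exact j.elim0
  obtain ⟨κ, lamA, Φ, h1, h2, h3, h4⟩ := exists_normal (M := 0) hε0 hε hf0 hm0 hf hm hP'
  obtain ⟨ii, hii⟩ := IsAlgClosed.exists_pow_nat_eq (-1 : k) (n := 2) (by norm_num)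
  have hcard : Fintype.card (WW ε0 ε) = Fintype.card (Fin s ⊕ Fin s) := by
    rw [Fintype.card_sum, Fintype.card_sum, Fintype.card_sigma]
    simp only [Fintype.card_fin]
    omega
  let e : WW ε0 ε ≃ Fin s ⊕ Fin s := Fintype.equivOfCardEq hcard
  have htwo : WW ε0 ε → (2 : k) ≠ 0 := by
    rintro (j | ⟨i, j⟩) h
    · have h0 : ε0 = 1 := by have := j.pos; omega
      refine hm0 ?_
      rw [h0, show r0 + 1 + r0 + 1 = 2 * (r0 + 1) by ring, Nat.cast_mul, Nat.cast_two, h, zero_mul]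
    · have h0 : ε i = 1 := by have := j.pos; have := hε i; omega
      refine hm i ?_
      rw [h0, show r i + 1 + r i + 1 = 2 * (r i + 1) by ring, Nat.cast_mul, Nat.cast_two, h, zero_mul]
  obtain ⟨hr, hD, Ψ, hΨr, hΨD, hΨΦ, hΦΨ⟩ := h2
  have hcu : ∀ (i : Fin N) (x : JJ r0 r s ⊕ JJ r0 r s → k),
      cu (Sum.inl i) (ofAB (ε0 := ε0) (ε := ε) e ii x) = dAB i x := fun i x => rfl
  have hdAB : ∀ (i : Fin N) (y : TT r0 ε0 r ε 0 → k), dAB i (toAB e ii y) = cu (Sum.inl i) y := by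
    intro i y
    rw [← hcu, ofAB_toAB hii htwo]
  have hx' : ∀ {x : JJ r0 r s ⊕ JJ r0 r s → k}, (∀ i, dAB i x ≠ 0) →
      ∀ i, cu i (ofAB (ε0 := ε0) (ε := ε) e ii x) ≠ 0 := by
    rintro x hx (i | j)
    · exact hx i
    · exact j.elim0
  have ha' : ∀ {a : Fin (d2 r0 ε0 r ε) → k}, (∀ i, dpt P i a ≠ 0) →
      ∀ i, dval (Sum.elim P (Fin.elim0 : Fin 0 → k)) i a ≠ 0 := by
    rintro a ha (i | j)
    · exact ha i
    · exact j.elim0
  refine ⟨κ, fun i => lamA (Sum.inl i), fun a => toAB e ii (Φ a), fun i => h1 _,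
    ⟨fun q => ?_, fun a ha i => ?_,
    fun x => Ψ (ofAB e ii x), fun q => ?_, fun x hx i => ?_, fun a ha => ?_, fun x hx => ?_⟩, fun a i => ?_,
    fun t ht => ?_⟩
  · exact (IsReg.comp_pol (isPol_toAB e ii q) hr).reindex
  · rw [hdAB]; exact hD a (ha' ha) (Sum.inl i)
  · have h5 := IsReg.comp_reg (hΨr q) (Θ := ofAB (r0 := r0) (r := r) (k := k) e ii) (isPol_ofAB e ii)
    exact h5.reindex
  · exact hΨD (ofAB e ii x) (hx' hx) (Sum.inl i)
  · show Ψ (ofAB e ii (toAB e ii (Φ a))) = a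
    rw [ofAB_toAB hii htwo, hΨΦ a (ha' ha)]
  · show toAB e ii (Φ (Ψ (ofAB e ii x))) = x
    rw [hΦΨ (ofAB e ii x) (hx' hx), toAB_ofAB hii htwo]
  · rw [hdAB]; exact h3 a (Sum.inl i)
  · have h5 := h4 t (by
      rintro l (i | j)
      · exact ht l i
      · exact j.elim0)
    rw [← gform_eq hii]
    exact h5

end Pool.Agent.U436.CT
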