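import Pool.Agent.U436.AS.Curve

/-!
# Borel–Moore homology with cycle classes on affine varieties: the formal properties

The varieties are the zero sets `X` of polynomials in affine spaces `k ^ ι`. `H X` is the Borel–Moore homology
`H_{2 i} (X) (-i)` for a fixed `i` (for example `ℓ`-adic, or rigid), and `alg X` is the subspace spanned by the
classes of the closed subvarieties of dimension `i`.
-/

set_option autoImplicit false

namespace Pool.Agent.U436.CT

open Pool.Agent.U436.AS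

variable {k : Type} [Field k]

/-- The common zeros of a set of polynomials. -/
def IsZeroSet {ι : Type} (X : Set (ι → k)) : Prop :=
  ∃ S : Set ((ι → k) → k), (∀ F ∈ S, IsPol F) ∧ X = {x | ∀ F ∈ S, F x = 0}

/-- A map given by polynomials. -/
def IsPolMap {ι κ : Type} (f : (ι → k) → κ → k) : Prop := ∀ j, IsPol fun x => f x j

/-- A polynomial automorphism of `X`. -/
def IsAut {ι : Type} (X : Set (ι → k)) (g : (ι → k) → ι → k) : Prop :=
  IsPolMap g ∧ (∀ x ∈ X, g x ∈ X) ∧ ∃ g' : (ι → k) → ι → k, IsPolMap g' ∧ (∀ x ∈ X, g' x ∈ X) ∧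
    (∀ x ∈ X, g' (g x) = x) ∧ ∀ x ∈ X, g (g' x) = x

/-- `X` is isomorphic with an affine space. -/
def IsAffineSpace {ι : Type} (X : Set (ι → k)) : Prop :=
  ∃ (κ : Type) (_ : Finite κ) (φ : (ι → k) → κ → k) (φ' : (κ → k) → ι → k), IsPolMap φ ∧ IsPolMap φ' ∧
    (∀ t, φ' t ∈ X ∧ φ (φ' t) = t) ∧ ∀ x ∈ X, φ' (φ x) = x

/-- The open part `h ≠ 0` of `X`, as the zero set of the pairs `(x, s)`, `x ∈ X`, `s * h x = 1`. -/
def opn {ι : Type} (X : Set (ι → k)) (h : (ι → k) → k) : Set (ι ⊕ Unit → k) :=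
  {w | w ∘ Sum.inl ∈ X ∧ w (Sum.inr ()) * h (w ∘ Sum.inl) = 1}

/-- The map `(x, s) ↦ (g x, s)`. -/
def ext {ι : Type} (g : (ι → k) → ι → k) (w : ι ⊕ Unit → k) : ι ⊕ Unit → k :=
  Sum.elim (g (w ∘ Sum.inl)) (w ∘ Sum.inr)

/-- `g` is an automorphism of `X` over `Y`, `X` being isomorphic with `Y × 𝔸¹` over `Y`. -/
def IsLineAut {ι : Type} (X : Set (ι → k)) (g : (ι → k) → ι → k) : Prop :=
  ∃ (κ : Type) (_ : Finite κ) (Y : Set (κ → k)) (p : (ι → k) → κ → k) (t : (ι → k) → k)
    (q : (κ ⊕ Unit → k) → ι → k), IsZeroSet Y ∧ IsPolMap p ∧ IsPol t ∧ IsPolMap q ∧ (∀ x ∈ X, p x ∈ Y) ∧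
    (∀ w : κ ⊕ Unit → k, w ∘ Sum.inl ∈ Y → q w ∈ X ∧ p (q w) = w ∘ Sum.inl ∧ t (q w) = w (Sum.inr ())) ∧
    (∀ x ∈ X, q (Sum.elim (p x) fun _ => t x) = x) ∧ ∀ x ∈ X, p (g x) = p x

/-- The pullback of the polynomials to the functions on `X`. -/
noncomputable def pull {ι κ : Type} (X : Set (ι → k)) (π : (ι → k) → κ → k) : MvPolynomial κ k →+* (X → k) :=
  RingHom.pi fun x : X => MvPolynomial.eval (π x)

/-- A finite morphism `X → Y`: a polynomial map, the coordinates of `X` being integral over the functions on `Y`. -/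
def IsFiniteMap {ι κ : Type} (X : Set (ι → k)) (Y : Set (κ → k)) (π : (ι → k) → κ → k) : Prop :=
  IsPolMap π ∧ (∀ x ∈ X, π x ∈ Y) ∧ ∀ i : ι, (pull X π).IsIntegralElem fun x : X => (x : ι → k) i

/-- The data: homology, classes of cycles, automorphisms, closed immersions, restrictions to the open parts `h ≠ 0`,
finite direct images. (The maps are used only under the hypotheses in `IsBorelMoore`.) -/
structure Theory (k K : Type) [Field k] [Field K] where
  H : ∀ {ι : Type}, Set (ι → k) → Type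
  [grp : ∀ {ι : Type} (X : Set (ι → k)), AddCommGroup (H X)]
  [mod : ∀ {ι : Type} (X : Set (ι → k)), Module K (H X)]
  alg : ∀ {ι : Type} (X : Set (ι → k)), Submodule K (H X)
  act : ∀ {ι : Type} (X : Set (ι → k)) (_ : (ι → k) → ι → k), H X →ₗ[K] H X
  incl : ∀ {ι : Type} (Z X : Set (ι → k)), H Z →ₗ[K] H X
  res : ∀ {ι : Type} (X : Set (ι → k)) (h : (ι → k) → k), H X →ₗ[K] H (opn X h)
  push : ∀ {ι κ : Type} (X : Set (ι → k)) (Y : Set (κ → k)) (_ : (ι → k) → κ → k), H X →ₗ[K] H Y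

attribute [instance] Theory.grp Theory.mod

/-- The action of an automorphism. -/
abbrev Theory.aut {K : Type} [Field K] (T : Theory k K) {ι : Type} (X : Set (ι → k)) (g : (ι → k) → ι → k)
    (x : T.H X) : T.H X := T.act X g x

/-- The image under a closed immersion. -/
abbrev Theory.inc {K : Type} [Field K] (T : Theory k K) {ι : Type} (Z X : Set (ι → k)) (z : T.H Z) : T.H X :=
  T.incl Z X z

/-- The restriction to the open part `h ≠ 0`. -/
abbrev Theory.rst {K : Type} [Field K] (T : Theory k K) {ι : Type} (X : Set (ι → k)) (h : (ι → k) → k)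
    (x : T.H X) : T.H (opn X h) := T.res X h x

/-- The direct image under a finite map. -/
abbrev Theory.img {K : Type} [Field K] (T : Theory k K) {ι κ : Type} (X : Set (ι → k)) (Y : Set (κ → k))
    (π : (ι → k) → κ → k) (x : T.H X) : T.H Y := T.push X Y π x

/-- The class is a combination of classes of closed subvarieties. -/
abbrev Theory.IsAlg {K : Type} [Field K] (T : Theory k K) {ι : Type} (X : Set (ι → k)) (x : T.H X) : Prop :=
  x ∈ T.alg X

/-- Functoriality: automorphisms and closed immersions. -/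
structure Theory.IsFunctorial {K : Type} [Field K] (T : Theory k K) : Prop where
  aut_comp : ∀ {ι : Type} [Finite ι] (X : Set (ι → k)) (g g' : (ι → k) → ι → k), IsZeroSet X → IsAut X g →
    IsAut X g' → ∀ x, T.aut X (fun y => g (g' y)) x = T.aut X g (T.aut X g' x)
  aut_inc : ∀ {ι : Type} [Finite ι] (Z X : Set (ι → k)) (g : (ι → k) → ι → k), IsZeroSet Z → IsZeroSet X →
    Z ⊆ X → IsAut Z g → IsAut X g → ∀ z, T.aut X g (T.inc Z X z) = T.inc Z X (T.aut Z g z)

/-- Functoriality: automorphisms, restrictions to open parts `h ≠ 0` and finite direct images. -/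
structure Theory.IsCompatible {K : Type} [Field K] (T : Theory k K) : Prop where
  aut_rst : ∀ {ι : Type} [Finite ι] (X : Set (ι → k)) (h : (ι → k) → k) (g : (ι → k) → ι → k), IsZeroSet X →
    IsPol h → IsAut X g → (∀ x ∈ X, h (g x) = h x) → ∀ x, T.rst X h (T.aut X g x) =
      T.aut (opn X h) (ext g) (T.rst X h x)
  img_aut : ∀ {ι κ : Type} [Finite ι] [Finite κ] (X : Set (ι → k)) (Y : Set (κ → k)) (π : (ι → k) → κ → k)
    (g : (ι → k) → ι → k) (g' : (κ → k) → κ → k), IsZeroSet X → IsZeroSet Y → IsFiniteMap X Y π →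
    IsAut X g → IsAut Y g' → (∀ x ∈ X, π (g x) = g' (π x)) →
    ∀ x, T.img X Y π (T.aut X g x) = T.aut Y g' (T.img X Y π x)

/-- Localization (the exact sequence of the closed part `h = 0`) and homotopy invariance (the homology of a trivial
line bundle comes from the base, so its automorphisms over the base act trivially). -/
structure Theory.IsLocal {K : Type} [Field K] (T : Theory k K) : Prop where
  exact : ∀ {ι : Type} [Finite ι] (X : Set (ι → k)) (h : (ι → k) → k), IsZeroSet X → IsPol h →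
    ∀ x, T.rst X h x = 0 → ∃ z, T.inc (X ∩ {y | h y = 0}) X z = x
  line : ∀ {ι : Type} [Finite ι] (X : Set (ι → k)) (g : (ι → k) → ι → k), IsZeroSet X → IsAut X g →
    IsLineAut X g → ∀ x, T.aut X g x = x

/-- Cycles: closed subvarieties of closed subvarieties; the homology of a finite disjoint union of affine spaces is
spanned by cycles. -/
structure Theory.HasCycles {K : Type} [Field K] (T : Theory k K) : Prop where
  alg_inc : ∀ {ι : Type} [Finite ι] (Z X : Set (ι → k)), IsZeroSet Z → IsZeroSet X → Z ⊆ X →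
    ∀ z, T.IsAlg Z z → T.IsAlg X (T.inc Z X z)
  cells : ∀ {ι β : Type} [Finite ι] (Z : Finset β) (L : β → Set (ι → k)), (∀ b ∈ Z, IsZeroSet (L b)) →
    (∀ b ∈ Z, IsAffineSpace (L b)) → (∀ b ∈ Z, ∀ c ∈ Z, b ≠ c → Disjoint (L b) (L c)) →
    ∀ x, T.IsAlg (⋃ b ∈ Z, L b) x

/-- `π : X → Y` is a finite map and its fibres are the orbits of the finite set `Γ` of automorphisms of `X`. -/
def IsQuotient {ι κ : Type} (X : Set (ι → k)) (Y : Set (κ → k)) (π : (ι → k) → κ → k)
    (Γ : Type) (ρ : Γ → (ι → k) → ι → k) : Prop :=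
  Finite Γ ∧ IsZeroSet X ∧ IsZeroSet Y ∧ IsFiniteMap X Y π ∧ (∀ y ∈ Y, ∃ x ∈ X, π x = y) ∧
    (∀ γ, IsAut X (ρ γ)) ∧ ∀ x ∈ X, ∀ x' ∈ X, π x = π x' ↔ ∃ γ, x' = ρ γ x

/-- Quotients by finite groups: the invariant classes are the classes of the quotient, also for cycles. -/
def Theory.HasQuotients {K : Type} [Field K] (T : Theory k K) : Prop :=
  ∀ {ι κ : Type} [Finite ι] [Finite κ] (X : Set (ι → k)) (Y : Set (κ → k)) (π : (ι → k) → κ → k)
    (Γ : Type) (ρ : Γ → (ι → k) → ι → k), IsQuotient X Y π Γ ρ →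
    ∀ x, (∀ γ, T.aut X (ρ γ) x = x) → T.IsAlg Y (T.img X Y π x) → T.IsAlg X x

/-- The properties of Borel–Moore homology with cycle classes which are used. -/
structure Theory.IsBorelMoore {K : Type} [Field K] (T : Theory k K) : Prop where
  functorial : T.IsFunctorial
  compatible : T.IsCompatible
  isLocal : T.IsLocal
  cycles : T.HasCycles
  quotients : T.HasQuotients

/-! ### The same properties in terms of linear maps -/

/-- Functoriality. -/
structure Theory.LawsF {K : Type} [Field K] (T : Theory k K) : Prop where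
  /-- automorphisms act -/
  act_comp : ∀ {ι : Type} [Finite ι] (X : Set (ι → k)) (g g' : (ι → k) → ι → k), IsZeroSet X → IsAut X g →
    IsAut X g' → ∀ x, T.act X (fun y => g (g' y)) x = T.act X g (T.act X g' x)
  /-- closed immersions and automorphisms -/
  act_incl : ∀ {ι : Type} [Finite ι] (Z X : Set (ι → k)) (g : (ι → k) → ι → k), IsZeroSet Z → IsZeroSet X →
    Z ⊆ X → IsAut Z g → IsAut X g → ∀ z, T.act X g (T.incl Z X z) = T.incl Z X (T.act Z g z)
  /-- restriction to an open part and automorphisms -/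
  act_res : ∀ {ι : Type} [Finite ι] (X : Set (ι → k)) (h : (ι → k) → k) (g : (ι → k) → ι → k), IsZeroSet X →
    IsPol h → IsAut X g → (∀ x ∈ X, h (g x) = h x) → ∀ x, T.res X h (T.act X g x) =
      T.act (opn X h) (ext g) (T.res X h x)
  /-- finite direct images and automorphisms -/
  push_act : ∀ {ι κ : Type} [Finite ι] [Finite κ] (X : Set (ι → k)) (Y : Set (κ → k)) (π : (ι → k) → κ → k)
    (g : (ι → k) → ι → k) (g' : (κ → k) → κ → k), IsZeroSet X → IsZeroSet Y → IsFiniteMap X Y π →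
    IsAut X g → IsAut Y g' → (∀ x ∈ X, π (g x) = g' (π x)) →
    ∀ x, T.push X Y π (T.act X g x) = T.act Y g' (T.push X Y π x)

/-- Localization and homotopy invariance. -/
structure Theory.LawsL {K : Type} [Field K] (T : Theory k K) : Prop where
  /-- the exact sequence of a closed subvariety `h = 0` -/
  exact : ∀ {ι : Type} [Finite ι] (X : Set (ι → k)) (h : (ι → k) → k), IsZeroSet X → IsPol h →
    ∀ x, T.res X h x = 0 → ∃ z, T.incl (X ∩ {y | h y = 0}) X z = x
  /-- homotopy invariance: the homology of a trivial line bundle comes from the base, so its automorphisms over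
  the base act trivially -/
  line : ∀ {ι : Type} [Finite ι] (X : Set (ι → k)) (g : (ι → k) → ι → k), IsZeroSet X → IsAut X g →
    IsLineAut X g → ∀ x, T.act X g x = x

/-- Cycles. -/
structure Theory.LawsC {K : Type} [Field K] (T : Theory k K) : Prop where
  /-- closed subvarieties of a closed subvariety -/
  alg_incl : ∀ {ι : Type} [Finite ι] (Z X : Set (ι → k)), IsZeroSet Z → IsZeroSet X → Z ⊆ X →
    ∀ z ∈ T.alg Z, T.incl Z X z ∈ T.alg X
  /-- the homology of a finite disjoint union of affine spaces is spanned by cycles -/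
  cells : ∀ {ι β : Type} [Finite ι] (Z : Finset β) (L : β → Set (ι → k)), (∀ b ∈ Z, IsZeroSet (L b)) →
    (∀ b ∈ Z, IsAffineSpace (L b)) → (∀ b ∈ Z, ∀ c ∈ Z, b ≠ c → Disjoint (L b) (L c)) →
    ∀ x, x ∈ T.alg (⋃ b ∈ Z, L b)
  /-- quotients by finite groups: the invariant classes are the classes of the quotient -/
  quotient : ∀ {ι κ : Type} [Finite ι] [Finite κ] (X : Set (ι → k)) (Y : Set (κ → k)) (π : (ι → k) → κ → k)
    (Γ : Type) (ρ : Γ → (ι → k) → ι → k), Finite Γ → IsZeroSet X → IsZeroSet Y → IsFiniteMap X Y π →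
    (∀ y ∈ Y, ∃ x ∈ X, π x = y) → (∀ γ, IsAut X (ρ γ)) →
    (∀ x ∈ X, ∀ x' ∈ X, π x = π x' ↔ ∃ γ, x' = ρ γ x) →
    ∀ x, (∀ γ, T.act X (ρ γ) x = x) → T.push X Y π x ∈ T.alg Y → x ∈ T.alg X

/-- The properties of Borel–Moore homology with cycle classes which are used. -/
structure Theory.Laws {K : Type} [Field K] (T : Theory k K) : Prop
    extends T.LawsF, T.LawsL, T.LawsC

theorem Theory.IsBorelMoore.laws {K : Type} [Field K] {T : Theory k K} (hT : T.IsBorelMoore) : T.Laws where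
  act_comp := hT.functorial.aut_comp
  act_incl := hT.functorial.aut_inc
  act_res := hT.compatible.aut_rst
  push_act := hT.compatible.img_aut
  exact := hT.isLocal.exact
  line := hT.isLocal.line
  alg_incl := hT.cycles.alg_inc
  cells := hT.cycles.cells
  quotient := fun X Y π Γ ρ h1 h2 h3 h4 h5 h6 h7 x hx hy =>
    hT.quotients X Y π Γ ρ ⟨h1, h2, h3, h4, h5, h6, h7⟩ x hx hy

/-! ### Lemmas -/

lemma IsZeroSet.inter {ι : Type} {X Y : Set (ι → k)} (hX : IsZeroSet X) (hY : IsZeroSet Y) :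
    IsZeroSet (X ∩ Y) := by
  obtain ⟨S, hS, rfl⟩ := hX
  obtain ⟨S', hS', rfl⟩ := hY
  refine ⟨S ∪ S', fun F hF => hF.elim (hS F) (hS' F), ?_⟩
  ext x
  constructor
  · rintro ⟨h1, h2⟩ F (hF | hF)
    · exact h1 F hF
    · exact h2 F hF
  · intro h
    exact ⟨fun F hF => h F (Or.inl hF), fun F hF => h F (Or.inr hF)⟩

lemma isZeroSet_eq {ι : Type} {F : (ι → k) → k} (hF : IsPol F) : IsZeroSet {x | F x = 0} :=
  ⟨{F}, fun G hG => by rw [Set.mem_singleton_iff.mp hG]; exact hF, by
    ext x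
    constructor
    · intro h G hG
      rw [Set.mem_singleton_iff.mp hG]; exact h
    · intro h
      exact h F rfl⟩

lemma isZeroSet_forall {ι κ : Type} {F : κ → (ι → k) → k} (hF : ∀ j, IsPol (F j)) :
    IsZeroSet {x | ∀ j, F j x = 0} :=
  ⟨Set.range F, by rintro G ⟨j, rfl⟩; exact hF j, by
    ext x
    constructor
    · rintro h G ⟨j, rfl⟩
      exact h j
    · intro h j
      exact h _ ⟨j, rfl⟩⟩

lemma IsPolMap.comp_pol {ι κ : Type} {f : (ι → k) → κ → k} (hf : IsPolMap f) {F : (κ → k) → k} (hF : IsPol F) :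
    IsPol fun x => F (f x) := hF.comp hf

lemma isPol_restrict {ι κ : Type} (u : κ → ι) {F : (κ → k) → k} (hF : IsPol F) :
    IsPol fun x : ι → k => F (x ∘ u) := hF.comp fun i => IsPol.coord (u i)

lemma IsZeroSet.opn {ι : Type} {X : Set (ι → k)} (hX : IsZeroSet X) {h : (ι → k) → k} (hh : IsPol h) :
    IsZeroSet (opn X h) := by
  obtain ⟨S, hS, rfl⟩ := hX
  have h1 : IsZeroSet {w : ι ⊕ Unit → k | ∀ F : S, (F : (ι → k) → k) (w ∘ Sum.inl) = 0} :=
    isZeroSet_forall fun F => isPol_restrict Sum.inl (hS F F.2)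
  have h2 : IsZeroSet {w : ι ⊕ Unit → k | w (Sum.inr ()) * h (w ∘ Sum.inl) - 1 = 0} :=
    isZeroSet_eq (((IsPol.coord _).mul (isPol_restrict Sum.inl hh)).sub (IsPol.const 1))
  have h3 := h1.inter h2
  have h4 : ({w : ι ⊕ Unit → k | ∀ F : S, (F : (ι → k) → k) (w ∘ Sum.inl) = 0} ∩
      {w : ι ⊕ Unit → k | w (Sum.inr ()) * h (w ∘ Sum.inl) - 1 = 0}) =
      CT.opn {x | ∀ F ∈ S, F x = 0} h := by
    ext w
    constructor
    · rintro ⟨h5, h6⟩
      exact ⟨fun F hF => h5 ⟨F, hF⟩, sub_eq_zero.mp h6⟩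
    · rintro ⟨h5, h6⟩
      exact ⟨fun F => h5 F F.2, sub_eq_zero.mpr h6⟩
  rw [h4] at h3
  exact h3

end Pool.Agent.U436.CT
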